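import Pool.Agent.V7H76.MU.Ineq
import Pool.Agent.V7H76.MW.Fin

/-!
Limit points are constant, heights of points, and finiteness over a finitely generated field.
-/

set_option autoImplicit false

open MvPolynomial FF Pool.Agent.W603.LV Pool.Agent.W603.PV Pool.Agent.W602.RG
open Pool.Agent.TH145.GH Pool.Agent.V7H76.MP Pool.Agent.V7H76.MW

namespace Pool.Agent.V7H76.MU

section limit

variable {k0 K : Type} [Field k0] [Field K] [Algebra k0 K] [IsAlgClosed k0] [IsAlgClosed K]
  [CharZero K]

/-- Limit points are constant. -/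
theorem limitU {n : ℕ} {A ι : Type} [DecidableEq ι] [Fintype ι]
    {g : Fin (n + 1) → ι}
    [Fintype A] {dg : A → ι → ℕ} (E : Subfield K)
    (hE : ∀ r : k0, algebraMap k0 K r ∈ E)
    {F : A → MvPolynomial (Fin (n + 1)) E} {DE : A → (Fin (n + 1) →₀ ℕ) → E → E}
    (hG : Gen g F dg DE)
    (D : A → (Fin (n + 1) →₀ ℕ) → Derivation ℤ K K)
    (hDE : ∀ a I (x : E), D a I x = (DE a I x : K))
    (hDk : ∀ a I (r : k0), D a I (algebraMap k0 K r) = 0)
    (W U : Set (MvPolynomial (Fin (n + 1) ⊕ A) k0)) (hW : CondU g dg k0 W U (fun _ => 2) 0)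
    (z : Fin (n + 1) → Om K) (hz : ∀ j, z j ∈ OE k0 (E : Set K)) {l0 : ι → Fin (n + 1)}
    (hg0 : ∀ i, g (l0 i) = i)
    (hl0 : ∀ i, z (l0 i) = 1)
    (hzW : ∀ G ∈ W, eval₂ ((cst K).comp (algebraMap k0 K))
      (Sum.elim z fun a => eval z (map ((cst K).comp E.subtype) (F a))) G = 0)
    (hzU : ∀ G ∈ U, eval₂ ((cst K).comp (algebraMap k0 K))
      (Sum.elim z fun a => eval z (map ((cst K).comp E.subtype) (F a))) G ≠ 0)
    (j : Fin (n + 1)) :
    z j ∈ acl (cst K '' (E : Set K)) := by
  classical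
  by_contra hj1
  obtain ⟨κ, Λ, φ, D', hac, hFF, hzΛ, hzκ, hφ, hdat, hDk'⟩ :=
    exists_rig_data E hE hG D hDE hDk z hz j hj1
  have hczOm : CharZero (Om K) :=
    charZero_of_injective_algebraMap (algebraMap K (Om K)).injective
  have hcz : CharZero κ := charZero_of_injective_algebraMap (algebraMap ℚ κ).injective
  have hczΛ : CharZero Λ := charZero_of_injective_algebraMap (algebraMap κ Λ).injective
  obtain ⟨x, hx⟩ : ∃ x : Fin (n + 1) → Λ, ∀ j, x j = ⟨z j, hzΛ j⟩ := ⟨_, fun _ => rfl⟩
  have hxz : (fun j => ((x j : Λ) : Om K)) = z := by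
    funext j
    rw [hx]
  have hxl0 : ∀ i, x (l0 i) = 1 := by
    intro i
    rw [hx]
    exact Subtype.ext (hl0 i)
  have h1 : pht κ (bl g (g j) x) ≤ ∑ᶠ _ : Place κ Λ, ((n : ℤ) + 1) * 0 := by
    let ψ : k0 →+* E := (algebraMap k0 K).codRestrict E hE
    let _ : Algebra k0 Λ := (φ.comp ψ).toAlgebra
    have h2 : (algebraMap Λ (Om K)).comp (φ.comp ψ) = (cst K).comp (algebraMap k0 K) := by
      ext r
      exact hφ (ψ r)
    have h3 := elim_comp (algebraMap Λ (Om K)) x fun a => eval x (map φ (F a))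
    have h4 : (fun i => algebraMap Λ (Om K) (x i)) = z := hxz
    have h5 : (fun a => algebraMap Λ (Om K) (eval x (map φ (F a)))) =
        fun a => eval z (map ((cst K).comp E.subtype) (F a)) := by
      funext a
      have h6 := eval_lift φ hφ (F a) x
      rw [hxz] at h6
      exact h6
    rw [h4, h5] at h3
    refine ineqU (k0 := k0) hdat (fun a I r => hDk' a I r) hW hg0 hxl0 ?_ ?_ (g j)
    · intro G hG
      apply Subtype.ext
      have h1 := hom_eval₂ G (φ.comp ψ) (algebraMap Λ (Om K))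
        (Sum.elim x fun a => eval x (map φ (F a)))
      refine h1.trans ?_
      have h6 := hzW G hG
      rw [← h2, ← h3] at h6
      exact h6
    · intro G hG h0
      have h1 := hom_eval₂ G (φ.comp ψ) (algebraMap Λ (Om K))
        (Sum.elim x fun a => eval x (map φ (F a)))
      have h6 := hzU G hG
      rw [← h2, ← h3, ← h1] at h6
      apply h6
      have h7 := congrArg (algebraMap Λ (Om K)) h0
      rw [map_zero] at h7
      exact h7
  simp only [mul_zero, finsum_zero] at h1
  have hb : ∀ s, g s = g j → bl g (g j) x s = x s := fun s hs => by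
    unfold bl
    rw [if_pos hs]
  obtain ⟨c, hc⟩ := const_of_pht h1 (by rw [hb _ (hg0 (g j))]; exact hxl0 _) j
  apply hzκ
  rw [hb j rfl] at hc
  have h2 := congrArg (fun w : Λ => (w : Om K)) hc
  rw [hx] at h2
  change z j = (c : Om K) at h2
  rw [h2]
  exact c.2

end limit

section fin

variable {k0 K η : Type} [Field k0] [Field K] [Algebra k0 K] [IsAlgClosed K] [CharZero K]
  {y : η → K} (E : IntermediateField (IntermediateField.adjoin k0 (Set.range y)) K)

/-- The heights of the points are bounded. -/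
theorem heightsU {n : ℕ} {A ι : Type} [DecidableEq ι] [Fintype ι]
    {g : Fin (n + 1) → ι}
    [Fintype A] {dg : A → ι → ℕ} (hy : AlgebraicIndependent k0 y)
    [FiniteDimensional (IntermediateField.adjoin k0 (Set.range y)) E]
    {F : A → MvPolynomial (Fin (n + 1)) E.toSubfield}
    {DE : A → (Fin (n + 1) →₀ ℕ) → E.toSubfield → E.toSubfield}
    (hG : Gen g F dg DE)
    (D : A → (Fin (n + 1) →₀ ℕ) → Derivation ℤ K K)
    (hDE : ∀ a I (x : E.toSubfield), D a I x = (DE a I x : K))
    (hDk : ∀ a I (r : k0), D a I (algebraMap k0 K r) = 0)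
    (hDy : ∀ a I j, ∃ r : k0, D a I (y j) = algebraMap k0 K r)
    (W U : Set (MvPolynomial (Fin (n + 1) ⊕ A) k0)) (hW : CondU g dg k0 W U (fun _ => 2) 0)
    {l0 : ι → Fin (n + 1)} (hg0 : ∀ i, g (l0 i) = i) (i : η) :
    ∃ B : ℤ, ∀ (x : Fin (n + 1) → E), (∀ i, x (l0 i) = 1) →
      (∀ G ∈ W, eval₂ (algebraMap k0 K) (Sum.elim (fun j => (x j : K)) fun a =>
        eval (fun j => (x j : K)) (map E.toSubfield.subtype (F a))) G = 0) →
      (∀ G ∈ U, eval₂ (algebraMap k0 K) (Sum.elim (fun j => (x j : K)) fun a =>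
        eval (fun j => (x j : K)) (map E.toSubfield.subtype (F a))) G ≠ 0) →
      ∀ j, hgt (kap k0 y i) (⟨(x j : K), subset_LL y _ i (x j).2⟩ :
        LL k0 y (E : Set K) i) ≤ B := by
  classical
  have hFF : IsFF (kap k0 y i) (LL k0 y (E : Set K) i) := LL_ff E hy i
  have hac : IsAlgClosed (kap k0 y i) := acl_isAlgClosed _
  have hcz : CharZero (kap k0 y i) := charZero_of_injective_algebraMap
    (algebraMap ℚ (kap k0 y i)).injective
  have hczL : CharZero (LL k0 y (E : Set K) i) :=
    charZero_of_injective_algebraMap (algebraMap (kap k0 y i) _).injective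
  obtain ⟨φ, D', e, hφ, hD', hdat⟩ := exists_data_L E hy hG D hDE hDk hDy i
  obtain ⟨H, hH⟩ : ∃ H : ℤ, H = max (∑ᶠ P, ((n + 1) * e P)) 0 := ⟨_, rfl⟩
  have hH0 : 0 ≤ H := by rw [hH]; exact le_max_right _ _
  refine ⟨H, fun x hx hxW hxU j => ?_⟩
  obtain ⟨x', hx'⟩ : ∃ x' : Fin (n + 1) → LL k0 y (E : Set K) i,
    ∀ j, x' j = ⟨(x j : K), subset_LL y _ i (x j).2⟩ := ⟨_, fun _ => rfl⟩
  have hxl0 : ∀ i, x' (l0 i) = 1 := by
    intro i
    rw [hx']
    apply Subtype.ext
    change (x (l0 i) : K) = 1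
    rw [hx]; rfl
  have hev : ∀ a, algebraMap (LL k0 y (E : Set K) i) K (eval x' (map φ (F a))) =
      eval (fun j => (x j : K)) (map E.toSubfield.subtype (F a)) := by
    intro a
    rw [eval_incl φ hφ (F a) x']
    congr 2
    funext j
    rw [hx']
    rfl
  have h1 : pht (kap k0 y i) (bl g (g j) x') ≤ H := by
    let ψ : k0 →+* LL k0 y (E : Set K) i :=
      { toFun := fun r => ⟨algebraMap k0 K r, subset_LL y _ i (k0_mem E r)⟩
        map_one' := Subtype.ext (map_one _)
        map_mul' := fun a b => Subtype.ext (map_mul _ a b)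
        map_zero' := Subtype.ext (map_zero _)
        map_add' := fun a b => Subtype.ext (map_add _ a b) }
    let _ : Algebra k0 (LL k0 y (E : Set K) i) := ψ.toAlgebra
    rw [hH]
    have h2 : (algebraMap (LL k0 y (E : Set K) i) K).comp ψ = algebraMap k0 K := by
      ext r
      rfl
    have h3 := elim_comp (algebraMap (LL k0 y (E : Set K) i) K) x' fun a =>
      eval x' (map φ (F a))
    have h4 : (fun j => algebraMap (LL k0 y (E : Set K) i) K (x' j)) = fun j => (x j : K) := by
      funext j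
      rw [hx']
      rfl
    simp only [hev] at h3
    rw [h4] at h3
    refine (ineqU (k0 := k0) hdat (fun a I r => ?_) hW hg0 hxl0 ?_ ?_ (g j)).trans
      (le_max_left _ _)
    · apply Subtype.ext
      rw [hD']
      exact hDk a I r
    · intro G hG
      apply Subtype.ext
      have h1 := hom_eval₂ G ψ (algebraMap (LL k0 y (E : Set K) i) K)
        (Sum.elim x' fun a => eval x' (map φ (F a)))
      refine h1.trans ?_
      have h6 := hxW G hG
      rw [← h2, ← h3] at h6
      exact h6
    · intro G hG h0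
      have h1 := hom_eval₂ G ψ (algebraMap (LL k0 y (E : Set K) i) K)
        (Sum.elim x' fun a => eval x' (map φ (F a)))
      have h6 := hxU G hG
      rw [← h2, ← h3, ← h1] at h6
      apply h6
      have h7 := congrArg (algebraMap (LL k0 y (E : Set K) i) K) h0
      rw [map_zero] at h7
      exact h7
  have hb : ∀ s, g s = g j → bl g (g j) x' s = x' s := fun s hs => by
    unfold bl
    rw [if_pos hs]
  rw [← hx']
  by_cases hj : x' j = 0
  · rw [hj]
    have := Pool.Agent.TH145.MG.hgt_const (k := kap k0 y i) (L := LL k0 y (E : Set K) i) 0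
    rw [map_zero] at this
    rw [this]
    exact hH0
  · have h2 := Pool.Agent.W603.CX.hgt_le_pht (k := kap k0 y i) (bl g (g j) x') (j := j)
      (l := l0 (g j)) (by rw [hb j rfl]; exact hj)
      (by rw [hb _ (hg0 _), hxl0]; exact one_ne_zero)
    rw [hb _ (hg0 _), hb j rfl, hxl0, div_one] at h2
    exact h2.trans h1

/-- Finiteness of the points. -/
theorem fin_allU {n : ℕ} {A ι : Type} [DecidableEq ι] [Fintype ι]
    {g : Fin (n + 1) → ι}
    [Fintype A] {dg : A → ι → ℕ} [IsAlgClosed k0] [Finite η]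
    (hy : IsTranscendenceBasis k0 y)
    [FiniteDimensional (IntermediateField.adjoin k0 (Set.range y)) E]
    [IsGalois (IntermediateField.adjoin k0 (Set.range y)) E]
    {F : A → MvPolynomial (Fin (n + 1)) E.toSubfield}
    {DE : A → (Fin (n + 1) →₀ ℕ) → E.toSubfield → E.toSubfield}
    (hG : Gen g F dg DE)
    (D : A → (Fin (n + 1) →₀ ℕ) → Derivation ℤ K K)
    (hDE : ∀ a I (x : E.toSubfield), D a I x = (DE a I x : K))
    (hDk : ∀ a I (r : k0), D a I (algebraMap k0 K r) = 0)
    (hDy : ∀ a I j, ∃ r : k0, D a I (y j) = algebraMap k0 K r)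
    (W U : Set (MvPolynomial (Fin (n + 1) ⊕ A) k0)) (hW : CondU g dg k0 W U (fun _ => 2) 0)
    {l0 : ι → Fin (n + 1)} (hg0 : ∀ i, g (l0 i) = i) :
    {x : Fin (n + 1) → K | (∀ j, x j ∈ E) ∧ (∀ i, x (l0 i) = 1) ∧
      (∀ G ∈ W, eval₂ (algebraMap k0 K) (Sum.elim x fun a =>
        eval x (map E.toSubfield.subtype (F a))) G = 0) ∧
      ∀ G ∈ U, eval₂ (algebraMap k0 K) (Sum.elim x fun a =>
        eval x (map E.toSubfield.subtype (F a))) G ≠ 0}.Finite := by
  by_contra hinf
  let f := Set.Infinite.natEmbedding _ hinf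
  obtain ⟨x, hx⟩ : ∃ x : ℕ → Fin (n + 1) → K, ∀ n, x n = (f n).1 := ⟨_, fun _ => rfl⟩
  have hxinj : Function.Injective x := by
    intro a b hab
    rw [hx, hx] at hab
    exact f.injective (Subtype.ext hab)
  have hxE : ∀ n j, x n j ∈ E := fun n j => by rw [hx]; exact (f n).2.1 j
  have hxl : ∀ i n, x n (l0 i) = 1 := fun i n => by rw [hx]; exact (f n).2.2.1 i
  have hxW : ∀ n, ∀ G ∈ W, eval₂ (algebraMap k0 K) (Sum.elim (x n) fun a =>
        eval (x n) (map E.toSubfield.subtype (F a))) G = 0 := fun n => by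
    rw [hx]; exact (f n).2.2.2.1
  have hxU : ∀ n, ∀ G ∈ U, eval₂ (algebraMap k0 K) (Sum.elim (x n) fun a =>
        eval (x n) (map E.toSubfield.subtype (F a))) G ≠ 0 := fun n => by
    rw [hx]; exact (f n).2.2.2.2
  choose B hB using fun i => heightsU E hy.1 hG D hDE hDk hDy W U hW hg0 i
  have hB' : ∀ n i j, hgt (kap k0 y i) (⟨x n j, subset_LL y _ i (hxE n j)⟩ :
        LL k0 y (E : Set K) i) ≤ B i := fun n i j =>
    hB i (fun j => ⟨x n j, hxE n j⟩) (fun i => Subtype.ext (hxl i n)) (hxW n) (hxU n) j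
  have hz : ∀ j, Om.mk (fun n => x n j) ∈ OE k0 ((E.toSubfield : Subfield K) : Set K) := fun j =>
    lim_mem E hy (fun n => ⟨x n j, hxE n j⟩) B fun n i => hB' n i j
  have hev : ∀ a, eval (fun j => Om.mk fun n => x n j)
      (map ((cst K).comp E.toSubfield.subtype) (F a)) =
      Om.mk fun n => eval (x n) (map E.toSubfield.subtype (F a)) := fun a =>
    Pool.Agent.TH145.GH.eval_mk (F a) x
  have h0 : (Sum.elim (fun j => Om.mk fun n => x n j) fun a =>
      eval (fun j => Om.mk fun n => x n j)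
        (map ((cst K).comp E.toSubfield.subtype) (F a))) =
      fun i => Om.mk fun n => Sum.elim (x n)
        (fun a => eval (x n) (map E.toSubfield.subtype (F a))) i := by
    funext i
    rcases i with i | a
    · rfl
    · exact hev a
  have hevG : ∀ G : MvPolynomial (Fin (n + 1) ⊕ A) k0,
      eval₂ ((cst K).comp (algebraMap k0 K)) (Sum.elim (fun j => Om.mk fun n => x n j) fun a =>
        eval (fun j => Om.mk fun n => x n j)
          (map ((cst K).comp E.toSubfield.subtype) (F a))) G =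
      Om.mk fun n => eval₂ (algebraMap k0 K) (Sum.elim (x n) fun a =>
        eval (x n) (map E.toSubfield.subtype (F a))) G := by
    intro G
    obtain ⟨v, hv⟩ : ∃ v : ℕ → Fin (n + 1) ⊕ A → K, ∀ n, v n = Sum.elim (x n)
      fun a => eval (x n) (map E.toSubfield.subtype (F a)) := ⟨_, fun _ => rfl⟩
    have h1 := eval_mk v (map (algebraMap k0 K) G)
    simp only [eval_map] at h1
    simp only [hv] at h1
    rw [h0, ← eval₂_map]
    exact h1
  have hacl := limitU E.toSubfield (fun r => k0_mem E r) hG D hDE hDk W U hW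
    (fun j => Om.mk fun n => x n j) hz (l0 := l0) hg0 (fun i => by
      have h1 : (fun n => x n (l0 i)) = fun _ => 1 := funext (hxl i)
      rw [h1]; rfl) (fun G hG => by
      rw [hevG]
      have h2 : (fun n => eval₂ (algebraMap k0 K) (Sum.elim (x n) fun a =>
          eval (x n) (map E.toSubfield.subtype (F a))) G) = fun _ => 0 := by
        funext n
        exact hxW n G hG
      rw [h2]
      rfl) (fun G hG => by
      rw [hevG]
      exact Om.mk_ne_zero fun n => hxU n G hG)
  choose a ha using fun j => eventually_const (hacl j)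
  exact not_all_const hxinj a ha

end fin

end Pool.Agent.V7H76.MU
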