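import Pool.Agent.V7H76.MU.Ineq
import Pool.Agent.V7H76.MW.Gen

/-!
Twisted canonical forms on the varieties with points in the preimages of locally closed subsets
under generic forms.
-/

set_option autoImplicit false

open MvPolynomial FF Pool.Agent.W603.LV Pool.Agent.W603.PV Pool.Agent.TH145.GH
open Pool.Agent.TH145.GC (Ev exists_minor)
open Pool.Agent.TH145.GE (ev dF_ev)
open Pool.Agent.TH145.GF (vE det_dec der_comb exists_coord_basis exists_dualsG)
open Pool.Agent.W602.GT Pool.Agent.TH145.MG Pool.Agent.V7H76.MP Pool.Agent.V7H76.MW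

namespace Pool.Agent.V7H76.MU

open scoped Classical in
/-- The twisted canonical forms. -/
theorem twistedU {k0 K L : Type} [Field k0] [Field K] [Field L] [Algebra k0 K] [Algebra K L]
    [IsAlgClosed K] [CharZero K] {n w M : ℕ} {A ι : Type} [DecidableEq ι] [Fintype ι]
    {g : Fin (n + 1) → ι} [Fintype A] {dg : A → ι → ℕ}
    (W U : Set (MvPolynomial (Fin (n + 1) ⊕ A) k0)) (S : Set ι)
    (hW : CondU g dg k0 W U (fun i => if i ∈ S then M + 1 else 1) w)
    (F : A → MvPolynomial (Fin (n + 1)) K) (hF : ∀ a, MH g (F a) (dg a))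
    (hind : AlgebraicIndependent k0 fun p : Cf g dg => (F p.1).coeff p.2.1)
    (hw : 0 < w)
    (htr : Algebra.trdeg K L = w) {x' : Fin (n + 1) → L} {l0 : ι → Fin (n + 1)}
    (hg0 : ∀ i, g (l0 i) = i) (hx1 : ∀ i, x' (l0 i) = 1)
    (hgen : Algebra.IsAlgebraic (coordsS g S K x') L)
    (hxW : ∀ G ∈ W, aeval (Sum.elim x' fun a => aeval x' (F a)) (map (algebraMap k0 K) G) = 0)
    (hxU : ∀ G ∈ U, aeval (Sum.elim x' fun a => aeval x' (F a)) (map (algebraMap k0 K) G) ≠ 0) :
    ∃ ω : (Fin w → Derivation K L L) → L, IsPluri 1 ω ∧ (∃ E, ω E ≠ 0) ∧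
      ∀ f : Fin M → Fin (n + 1), (∀ j, g (f j) ∈ S) → ∀ Q : Place K L, Divisorial w Q →
        RegAt Q fun D => (∏ j, x' (f j)) * ω D := by
  let _ : Algebra k0 L := ((algebraMap K L).comp (algebraMap k0 K)).toAlgebra
  have hst : IsScalarTower k0 K L := IsScalarTower.of_algebraMap_eq fun _ => rfl
  have hL : CharZero L := charZero_of_injective_algebraMap (algebraMap K L).injective
  obtain ⟨l, hl, hlS⟩ := exists_basisS S htr hgen
  obtain ⟨t, ht⟩ : ∃ t : Fin w → L, ∀ i, t i = x' (l i) := ⟨_, fun _ => rfl⟩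
  have htb : IsTranscendenceBasis K t := by
    have : t = fun i => x' (l i) := funext ht
    rw [this]
    exact hl
  obtain ⟨D, hD0, hDS, hDk⟩ := exists_dualW htb F hind
  obtain ⟨H, hH⟩ : ∃ H : A → MvPolynomial (Fin (n + 1)) L, H = fun a =>
    map (algebraMap K L) (F a) := ⟨_, rfl⟩
  rw [← hH] at hD0
  have hHh : ∀ a, MH g (H a) (dg a) := fun a => by
    rw [hH]
    exact (hF a).map g _
  have hD := hD0.dualE hHh
  have hFK : ∀ (δ : Derivation K L L) a u, δ ((H a).coeff u) = 0 := fun δ a u => by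
    rw [hH, coeff_map]
    exact δ.map_algebraMap _
  have hxW' : ∀ G ∈ W, aeval (Sum.elim x' fun a => eval x' (H a)) G = 0 := by
    intro G hG
    have h1 := hxW G hG
    rw [aeval_map_algebraMap] at h1
    rw [hH]
    simp only [eval_map]
    exact h1
  have hxU' : ∀ G ∈ U, aeval (Sum.elim x' fun a => aeval x' (F a)) G ≠ 0 := by
    intro G hG
    have h1 := hxU G hG
    rw [aeval_map_algebraMap] at h1
    exact h1
  have hxU'' : ∀ G ∈ U, aeval (Sum.elim x' fun a => eval x' (H a)) G ≠ 0 := by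
    intro G hG
    have h1 := hxU' G hG
    rw [hH]
    simp only [eval_map]
    exact h1
  -- the vertical derivations
  obtain ⟨E, hE⟩ : ∃ E : Fin w → Derivation K L L, ∀ i j, E i (t j) = if i = j then 1 else 0 := by
    obtain ⟨E, hE⟩ := exists_dual htb
    refine ⟨E, fun i j => ?_⟩
    have := congrFun (congrFun hE i) j
    rw [Matrix.of_apply, Matrix.one_apply] at this
    rw [this]
  have hx0' : ∀ i, x' (l0 i) ≠ 0 := fun i => by rw [hx1]; exact one_ne_zero
  have hindep : LinearIndepOn L (vv g dg D (vE E) x' (base dg l0)) (Vert ι (Fin w) n A) := by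
    obtain ⟨f, hf1, hf2⟩ : ∃ f : ι ⊕ Fin w → Ix ι (Fin w) n A ⊕ A,
      (∀ i, f (Sum.inl i) = Sum.inl (Sum.inl i)) ∧
      ∀ j, f (Sum.inr j) = Sum.inl (Sum.inr (Sum.inl j)) :=
      ⟨Sum.elim (fun i => Sum.inl (Sum.inl i)) (fun j => Sum.inl (Sum.inr (Sum.inl j))),
        fun _ => rfl, fun _ => rfl⟩
    have h1 : Vert ι (Fin w) n A = f '' Set.univ := by
      ext r
      constructor
      · rintro (⟨i, rfl⟩ | ⟨j, rfl⟩)
        · exact ⟨Sum.inl i, trivial, hf1 i⟩
        · exact ⟨Sum.inr j, trivial, hf2 j⟩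
      · rintro ⟨(i | j), -, rfl⟩
        · exact Or.inl ⟨i, hf1 i⟩
        · exact Or.inr ⟨j, hf2 j⟩
    rw [h1]
    refine LinearIndepOn.image_of_comp _ _ ?_
    rw [linearIndepOn_univ_iff, Fintype.linearIndependent_iff]
    intro r hr
    have h2 : ∀ q, r (Sum.inl (g q)) * x' q + ∑ j, r (Sum.inr j) * E j (x' q) = 0 := by
      intro q
      have h3 := congrFun hr q
      rw [Fintype.sum_sum_type, Pi.add_apply, Finset.sum_apply, Finset.sum_apply] at h3
      simp only [Function.comp_apply, hf1, hf2, Pi.smul_apply, smul_eq_mul, Pi.zero_apply] at h3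
      have h4 : ∑ i, r (Sum.inl i) * vv g dg D (vE E) x' (base dg l0) (Sum.inl (Sum.inl i)) q =
          r (Sum.inl (g q)) * x' q := by
        rw [Finset.sum_eq_single (g q)]
        · simp only [vv, wv, bl]
          rw [if_pos trivial]
        · intro i _ hi
          simp only [vv, wv, bl]
          rw [if_neg (Ne.symm hi), mul_zero]
        · intro h; exact absurd (Finset.mem_univ _) h
      rw [h4] at h3
      exact h3
    have h3 : ∀ i, r (Sum.inl i) = 0 := by
      intro i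
      have h4 := h2 (l0 i)
      rw [hx1, hg0, mul_one, Finset.sum_eq_zero fun j _ => by
        rw [(E j).map_one_eq_zero, mul_zero], add_zero] at h4
      exact h4
    rintro (i | j)
    · exact h3 i
    · have h4 := h2 (l j)
      rw [h3, zero_mul, zero_add, ← ht, Finset.sum_eq_single j] at h4
      · rwa [hE, if_pos rfl, mul_one] at h4
      · intro i _ hi
        rw [hE, if_neg hi, mul_zero]
      · intro h; exact absurd (Finset.mem_univ _) h
  obtain ⟨b, hbV, hbi, hspan, hsp, hcard⟩ := exists_rows (E := vE E) (dg := dg) (D := D) hg0 hx0'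
    hindep
  obtain ⟨B, hB⟩ : ∃ B : Finset A, ∀ a, a ∈ B ↔ Sum.inr a ∈ b :=
    ⟨Finset.univ.filter fun a => Sum.inr a ∈ b, fun a => by simp⟩
  obtain ⟨m, μ, hrk, hblk, hdim⟩ := exists_numsU (E := vE E) hDk (fun i r => by
      change E i (algebraMap k0 L r) = 0
      rw [IsScalarTower.algebraMap_apply k0 K L]
      exact (E i).map_algebraMap _) (fun i a u => hFK (E i) a u) hD hg0 hx1 hB hsp hW hxW' hxU''
  obtain ⟨τ, hτ⟩ := exists_minor _ hbi
  have hdet : (mx g dg D (vE E) x' (base dg l0) b τ).det ≠ 0 := by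
    rw [Ne, det_dec _ _ (mx g dg D (vE E) x' (base dg l0) b τ)]
    exact hτ
  have hbp : ∀ i, Sum.inl (Sum.inl i) ∈ b := fun i => hbV _ (Or.inl ⟨i, rfl⟩)
  have htot : ∀ i, tot (Fin w) g b τ i ≤ ∑ a ∈ B, dg a i ∧
      (i ∈ S → tot (Fin w) g b τ i + M ≤ ∑ a ∈ B, dg a i) := by
    intro i
    have h1 := tot_le (fun a => mdeg_base g dg hg0 a) τ hB hbV (by
      rw [Ne, det_dec _ _ (mx g dg D (vE E) x' (base dg l0) b τ)]
      exact hdet) (hcard ▸ hrk) i (hblk i)
    have h2 := hdim i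
    rw [Fintype.card_fin] at h1
    by_cases hi : i ∈ S
    · rw [if_pos hi] at h2
      refine ⟨by omega, fun _ => by omega⟩
    · rw [if_neg hi] at h2
      exact ⟨by omega, fun h => absurd h hi⟩
  -- the forms
  obtain ⟨Z, hZ⟩ : ∃ Z, Z = ∏ a ∈ B, mon x' (base dg l0 a) := ⟨_, rfl⟩
  have hZ0 : Z ≠ 0 := by
    rw [hZ]
    refine Finset.prod_ne_zero_iff.2 fun a _ => ?_
    rw [mon_base]
    exact Finset.prod_ne_zero_iff.2 fun i _ => pow_ne_zero _ (hx0' i)
  obtain ⟨ω, hω⟩ : ∃ ω : (Fin w → Derivation K L L) → L, ∀ Dd, ω Dd =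
    (mx g dg D (vE Dd) x' (base dg l0) b τ).det / Z := ⟨_, fun _ => rfl⟩
  have hlin : ∀ (M : Matrix (Fin w) (Fin w) L) (D1 D2 : Fin w → Derivation K L L),
      (∀ i f, D1 i f = ∑ j, M i j * D2 j f) → ω D1 = M.det * ω D2 := by
    intro M D1 D2 h
    have h1 := det_lin (g := g) (dg := dg) (D := D) (E := vE D2) (E' := vE D1) (M := M)
      h x' hbV τ (base dg l0)
    have h2 : (mx g dg D (vE D1) x' (base dg l0) b τ).det =
        M.det * (mx g dg D (vE D2) x' (base dg l0) b τ).det := by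
      exact (det_dec _ _ _).trans (h1.trans (congrArg₂ (· * ·) (det_dec _ _ _) (det_dec _ _ _)))
    rw [hω, hω, h2]
    ring
  refine ⟨ω, fun M Dd => ?_, ⟨E, by rw [hω]; exact div_ne_zero hdet hZ0⟩, ?_⟩
  · rw [pow_one]
    refine hlin M _ Dd (fun i f => ?_)
    rw [← Derivation.coeFnAddMonoidHom_apply, map_sum, Finset.sum_apply]
    rfl
  -- the regularity
  intro f hf Q hQ Dd hDd
  obtain ⟨Mt, hMt⟩ : ∃ Mt : Matrix (Fin w) (Fin w) L, Mt = Matrix.of fun i j => Dd i (t j) :=
    ⟨_, rfl⟩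
  have hωM := hlin Mt Dd E (fun i f => by
    rw [der_comb htb hE (Dd i) f, hMt]
    rfl)
  dsimp only
  by_cases hM0 : Mt.det = 0
  · rw [hωM, hM0, zero_mul, mul_zero]
    exact Q.reg_zero
  by_cases hxj : ∏ j, x' (f j) = 0
  · rw [hxj, zero_mul]
    exact Q.reg_zero
  have hxj' : ∀ j, x' (f j) ≠ 0 := fun j => Finset.prod_ne_zero_iff.1 hxj j (Finset.mem_univ _)
  have hMd : (Matrix.of fun i j => Dd i (t j)).det = Mt.det := by
    rw [hMt]
  have h1 := ord_theta Q hg0 hx0' τ hB hbp hspan (by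
    rw [Ne, det_dec _ _ (mx g dg D (vE E) x' (base dg l0) b τ)]
    exact hdet) (N := -Q.ord Mt.det)
    (fun x'' e1 hx'' hge1 hdet' => by
      have h2 := ord_det_local hw htr hQ hDS htb hE (Dd := Dd) hDd (by
        rw [Ne, hMd]
        exact hM0) hx'' hbV τ (base dg e1) hdet'
      have h3 : Q.ord (Matrix.of fun i j => Dd i (t j)).det = Q.ord Mt.det := by
        rw [hMt]
      linarith)
  rw [← hZ] at h1
  have hdz : (mx g dg D (vE E) x' (base dg l0) b τ).det / Z ≠ 0 :=
    div_ne_zero hdet hZ0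
  right
  rw [hωM, hω, Q.ord_mul hxj (mul_ne_zero hM0 hdz), Q.ord_mul hM0 hdz]
  have hbl : ∀ i s, g s = i → bl g i x' s = x' s := fun i s hs => by
    unfold bl
    rw [if_pos hs]
  have h3 : ∑ j, pord Q (bl g (g (f j)) x') ≤ Q.ord (∏ j, x' (f j)) := by
    rw [Pool.Agent.TH145.GC.ord_prod Q _ _ fun j _ => hxj' j]
    refine Finset.sum_le_sum fun j _ => ?_
    have := pord_le Q (f := bl g (g (f j)) x') (j := f j) (by rw [hbl _ _ rfl]; exact hxj' j)
    rwa [hbl _ _ rfl] at this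
  have h4 : ∀ i, pord Q (bl g i x') ≤ 0 := by
    intro i
    have := pord_le Q (f := bl g i x') (j := l0 i) (by rw [hbl _ _ (hg0 i)]; exact hx0' i)
    rwa [hbl _ _ (hg0 i), hx1, Q.ord_one] at this
  have h5 : ∑ j, pord Q (bl g (g (f j)) x') =
      ∑ i, ((Finset.univ.filter fun j => g (f j) = i).card : ℤ) * pord Q (bl g i x') := by
    rw [← Finset.sum_fiberwise Finset.univ (fun j => g (f j))]
    refine Finset.sum_congr rfl fun i _ => ?_
    rw [Finset.sum_congr rfl (g := fun _ => pord Q (bl g i x')) fun j hj => by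
      rw [(Finset.mem_filter.1 hj).2], Finset.sum_const, nsmul_eq_mul]
  have h6 : 0 ≤ ∑ i, ((tot (Fin w) g b τ i : ℤ) - (∑ a ∈ B, dg a i : ℕ)) * pord Q (bl g i x') +
      ∑ j, pord Q (bl g (g (f j)) x') := by
    rw [h5, ← Finset.sum_add_distrib]
    refine Finset.sum_nonneg fun i _ => ?_
    rw [← add_mul]
    refine mul_nonneg_of_nonpos_of_nonpos ?_ (h4 i)
    by_cases hi : i ∈ S
    · have h7 : ((tot (Fin w) g b τ i : ℕ) : ℤ) + M ≤ (∑ a ∈ B, dg a i : ℕ) := by
        exact_mod_cast (htot i).2 hi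
      have h8 : (Finset.univ.filter fun j => g (f j) = i).card ≤ M := by
        have := Finset.card_filter_le (Finset.univ : Finset (Fin M)) fun j => g (f j) = i
        rwa [Finset.card_univ, Fintype.card_fin] at this
      have h9 : ((Finset.univ.filter fun j => g (f j) = i).card : ℤ) ≤ M := by
        exact_mod_cast h8
      linarith
    · have h7 : ((tot (Fin w) g b τ i : ℕ) : ℤ) ≤ (∑ a ∈ B, dg a i : ℕ) := by
        exact_mod_cast (htot i).1
      have h8 : (Finset.univ.filter fun j => g (f j) = i).card = 0 := by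
        rw [Finset.card_eq_zero, Finset.filter_eq_empty_iff]
        intro j _ hj
        exact hi (hj ▸ hf j)
      rw [h8, Nat.cast_zero]
      linarith
  linarith

end Pool.Agent.V7H76.MU
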