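import Pool.Agent.V7H76.MU.Fin
import Pool.Agent.V7H76.MW.Pts

/-!
Finiteness of the points of the preimages of locally closed subsets under generic forms.
-/

set_option autoImplicit false

open MvPolynomial Pool.Agent.W602.GT LinearAlgebra.Projectivization Pool.Agent.TH145.GH
open Pool.Agent.V7H76.MP Pool.Agent.V7H76.MW

namespace Pool.Agent.V7H76.MU

/-- Finiteness of the points over a field generated by a finite set over `k0`. -/
theorem fin_pointsU {k0 K : Type} [Field k0] [Field K] [Algebra k0 K] [IsAlgClosed K]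
    [CharZero K] [IsAlgClosed k0] {n : ℕ} {A ι : Type} [DecidableEq ι] [Fintype ι]
    {g : Fin (n + 1) → ι} [Fintype A] {dg : A → ι → ℕ}
    (W U : Set (MvPolynomial (Fin (n + 1) ⊕ A) k0)) (hW : CondU g dg k0 W U (fun _ => 2) 0)
    {F : A → MvPolynomial (Fin (n + 1)) K} (hF : ∀ a, MH g (F a) (dg a))
    (hind : AlgebraicIndependent k0 fun p : Cf g dg => (F p.1).coeff p.2.1)
    (T : Finset K) {l0 : ι → Fin (n + 1)} (hg0 : ∀ i, g (l0 i) = i) :
    {x : Fin (n + 1) → K | (∀ j, x j ∈ IntermediateField.adjoin k0 (T : Set K)) ∧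
      (∀ i, x (l0 i) = 1) ∧
      (∀ G ∈ W, aeval (Sum.elim x fun a => eval x (F a)) G = 0) ∧
      ∀ G ∈ U, aeval (Sum.elim x fun a => eval x (F a)) G ≠ 0}.Finite := by
  classical
  obtain ⟨B, hB, K1, y, E, F1, DE, D, hK1, hc, hy, h1, h2, h3, h4, h5, h6, h7, h8⟩ :=
    exists_all hF hind T
  have : Finite B := hB
  have h9 := fin_allU E hy h3 D h4 h5 h6 W U hW hg0
  refine (h9.image fun x j => (x j : K)).subset ?_
  rintro x ⟨hx, hxl, hxW, hxU⟩
  choose e he hex using fun j => h8 (x j) (hx j)
  have hex' : (fun j => algebraMap K1 K (e j)) = x := funext hex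
  have hev : ∀ a, algebraMap K1 K (eval e (map E.toSubfield.subtype (F1 a))) =
      eval x (F a) := by
    intro a
    rw [← h7, eval_map, eval_map]
    have h10 := hom_eval₂ (F1 a) E.toSubfield.subtype (algebraMap K1 K) e
    rw [h10, hex']
  have hevG : ∀ G : MvPolynomial (Fin (n + 1) ⊕ A) k0, algebraMap K1 K
      (eval₂ (algebraMap k0 K1) (Sum.elim e fun a =>
        eval e (map E.toSubfield.subtype (F1 a))) G) =
      aeval (Sum.elim x fun a => eval x (F a)) G := by
    intro G
    have h10 := hom_eval₂ G (algebraMap k0 K1) (algebraMap K1 K)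
      (Sum.elim e fun a => eval e (map E.toSubfield.subtype (F1 a)))
    have h11 := elim_comp (algebraMap K1 K) e fun a => eval e (map E.toSubfield.subtype (F1 a))
    simp only [hev] at h11
    rw [hex'] at h11
    rw [h10, h11]
    rfl
  refine ⟨e, ⟨he, fun i => ?_, fun G hG => ?_, fun G hG h0 => ?_⟩, funext hex⟩
  · apply Subtype.ext
    rw [hex, hxl]
    rfl
  · apply (algebraMap K1 K).injective
    rw [hevG, map_zero]
    exact hxW G hG
  · apply hxU G hG
    rw [← hevG, h0, map_zero]

variable {k K : Type} [Field k] [Field K] [IsAlgClosed K] [CharZero K] [Algebra k K] {n : ℕ}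
  {A ι : Type} [DecidableEq ι] [Fintype ι] {g : Fin (n + 1) → ι} [Fintype A]
  {dg : A → ι → ℕ}

/-- The points over a finitely generated field. -/
theorem fin_pullU
    (W U : Set (MvPolynomial (Fin (n + 1) ⊕ A) (algebraicClosure k K)))
    (hWh : ∀ G ∈ W, ∃ e, WH g dg G e) (hUh : ∀ G ∈ U, ∃ e, WH g dg G e)
    (hW : CondU g dg (algebraicClosure k K) W U (fun _ => 2) 0)
    (F : A → MvPolynomial (Fin (n + 1)) K) (hF : ∀ a, MH g (F a) (dg a))
    (hind : AlgebraicIndependent k fun p : Cf g dg => (F p.1).coeff p.2.1) (T : Finset K) :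
    (PtsM g (IntermediateField.adjoin (algebraicClosure k K) (T : Set K) : Set K)
      fun x => (∀ G ∈ W, aeval (Sum.elim x fun a => eval x (F a)) G = 0) ∧
        ∀ G ∈ U, aeval (Sum.elim x fun a => eval x (F a)) G ≠ 0).Finite := by
  have hac : IsAlgClosed (algebraicClosure k K) := (algebraicClosure.isAlgClosure k K).isAlgClosed
  refine pts_finite (IntermediateField.adjoin (algebraicClosure k K) (T : Set K)).toSubfield
    (fun x => (∀ G ∈ W, aeval (Sum.elim x fun a => eval x (F a)) G = 0) ∧
        ∀ G ∈ U, aeval (Sum.elim x fun a => eval x (F a)) G ≠ 0) (fun lam x hlam hx => ?_)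
    fun l0 hg0 => ?_
  · have h2 : (fun a => (∏ i, lam i ^ dg a i) * eval x (F a)) =
        fun a => eval (fun s => lam (g s) * x s) (F a) := by
      funext a
      have h3 := aeval_scaleM (K := K) (hF a) lam x
      rw [aeval_eq_eval, aeval_eq_eval] at h3
      exact h3.symm
    refine ⟨fun G hG => ?_, fun G hG => ?_⟩
    · obtain ⟨e, he⟩ := hWh G hG
      have h1 := aeval_scaleW he lam x fun a => eval x (F a)
      rw [h2, hx.1 G hG, mul_zero] at h1
      exact h1
    · obtain ⟨e, he⟩ := hUh G hG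
      have h1 := aeval_scaleW he lam x fun a => eval x (F a)
      rw [h2] at h1
      rw [h1]
      exact mul_ne_zero (Finset.prod_ne_zero_iff.2 fun i _ => pow_ne_zero _ (hlam i)) (hx.2 G hG)
  · exact fin_pointsU W U hW hF hind.algebraicClosure T hg0

end Pool.Agent.V7H76.MU
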