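import Pool.Agent.V7H76.MU.Forms
import Pool.Agent.V7H76.MU.Pts

/-!
Varieties with points in the preimages of locally closed subsets under generic forms are of general
type.
-/

set_option autoImplicit false

open MvPolynomial FF Pool.Agent.W603.LV Pool.Agent.W603.PV Pool.Agent.TH145.GH
open Pool.Agent.W602.GT Pool.Agent.TH145.MG Pool.Agent.V7H76.MP Pool.Agent.V7H76.MW

namespace Pool.Agent.V7H76.MU

open scoped Classical in
/-- Varieties with points in the preimages of locally closed subsets under generic forms are of general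
type. -/
theorem general_pullU {k0 K L : Type} [Field k0] [Field K] [Field L] [Algebra k0 K] [Algebra K L]
    [IsAlgClosed K] [CharZero K] {n w : ℕ} {A ι : Type} [DecidableEq ι] [Fintype ι]
    {g : Fin (n + 1) → ι} [Fintype A] {dg : A → ι → ℕ}
    (W U : Set (MvPolynomial (Fin (n + 1) ⊕ A) k0)) (hWh : ∀ G ∈ W, ∃ e, WH g dg G e)
    (hUh : ∀ G ∈ U, ∃ e, WH g dg G e) (S : Set ι)
    (hW : CondU g dg k0 W U (fun i => if i ∈ S then 2 else 1) w)
    (F : A → MvPolynomial (Fin (n + 1)) K) (hF : ∀ a, MH g (F a) (dg a))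
    (hind : AlgebraicIndependent k0 fun p : Cf g dg => (F p.1).coeff p.2.1)
    (hw : 0 < w)
    (htr : Algebra.trdeg K L = w) (x : Fin (n + 1) → L) (hx0 : ∀ i, ∃ s, g s = i ∧ x s ≠ 0)
    (hgen : Algebra.IsAlgebraic (coordsS g S K x) L)
    (hxW : ∀ G ∈ W, aeval (Sum.elim x fun a => aeval x (F a)) (map (algebraMap k0 K) G) = 0)
    (hxU : ∀ G ∈ U, aeval (Sum.elim x fun a => aeval x (F a)) (map (algebraMap k0 K) G) ≠ 0) :
    GeneralType K L w := by
  obtain ⟨lam, x', l0, hlam, hxl, hg0, hx1, hco, -, hxW'⟩ := exists_norm hWh hF hx0 hxW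
  have hxU' : ∀ G ∈ U, aeval (Sum.elim x' fun a => aeval x' (F a)) (map (algebraMap k0 K) G) ≠ 0 := by
    intro G hG
    obtain ⟨e, he⟩ := hUh G hG
    have he' : WH g dg (map (algebraMap k0 K) G) e := fun u hu =>
      he u (support_map_subset _ _ hu)
    have h1 := aeval_scaleW he' lam x fun a => aeval x (F a)
    have h2 : (fun a => (∏ i, lam i ^ dg a i) * aeval x (F a)) =
        fun a => aeval (fun s => lam (g s) * x s) (F a) := by
      funext a
      exact (aeval_scaleM (hF a) lam x).symm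
    have h3 : (fun s => lam (g s) * x s) = x' := by
      funext s
      exact (hxl s).symm
    rw [h2, h3] at h1
    rw [h1]
    exact mul_ne_zero (Finset.prod_ne_zero_iff.2 fun i _ => pow_ne_zero _ (hlam i)) (hxU G hG)
  have hco' : coordsS g S K x' = coordsS g S K x := by
    unfold coordsS
    congr 1
    ext z
    exact hco S z
  rw [← hco'] at hgen
  obtain ⟨l, hl, hlS⟩ := exists_basisS S htr hgen
  obtain ⟨ω, hω, ⟨E, hE⟩, hreg⟩ := twistedU (M := 1) W U S hW F hF hind hw htr hg0 hx1 hgen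
    hxW' hxU'
  obtain ⟨lj, hlj⟩ : ∃ lj : Fin (w + 1) → Fin (n + 1), lj = Fin.cons (l0 (g (l ⟨0, hw⟩))) l :=
    ⟨_, rfl⟩
  have hljS : ∀ j, g (lj j) ∈ S := by
    intro j
    refine Fin.cases ?_ (fun j => ?_) j
    · rw [hlj, Fin.cons_zero, hg0]
      exact hlS _
    · rw [hlj, Fin.cons_succ]
      exact hlS _
  refine ⟨htr, 1, one_pos, fun j Dd => x' (lj j) * ω Dd, fun j M Dd => ?_, fun Q hQ j => ?_,
    E, ?_, ?_⟩
  · dsimp only
    rw [hω]
    ring
  · have h1 := hreg (fun _ => lj j) (fun _ => hljS j) Q hQ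
    simpa using h1
  · dsimp only
    rw [hlj, Fin.cons_zero, hx1, one_mul]
    exact hE
  · have h1 : (fun i : Fin w => (x' (lj i.succ) * ω E) / (x' (lj 0) * ω E)) =
        fun i => x' (l i) := by
      funext i
      rw [hlj, Fin.cons_succ, Fin.cons_zero, hx1, one_mul, mul_div_cancel_right₀ _ hE]
    rw [h1]
    exact hl.1

end Pool.Agent.V7H76.MU
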