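import Pool.Agent.V7H76.MU.Gen

/-!
Generic forms with given restrictions to closed subschemes of projective space.
-/

set_option autoImplicit false

open MvPolynomial FF Pool.Agent.W603.LV Pool.Agent.W603.PV Pool.Agent.TH145.GH
open Pool.Agent.W602.GT Pool.Agent.TH145.MG Pool.Agent.V7H76.MP Pool.Agent.V7H76.MW

namespace Pool.Agent.V7H76.MU

section defs

variable {k : Type} [Field k] {n : ℕ} {A : Type} {B : A → Type}

/-- One block. -/
abbrev g1 (n : ℕ) : Fin (n + 1) → Unit := fun _ => ()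

theorem mdeg_g1 (u : Fin (n + 1) →₀ ℕ) (i : Unit) : mdeg (g1 n) u i = u.degree := by
  unfold mdeg
  rw [Finsupp.degree_eq_sum]
  refine Finset.sum_congr rfl fun s _ => ?_
  exact if_pos rfl

theorem MH_of_hom {R : Type} [CommSemiring R] {f : MvPolynomial (Fin (n + 1)) R} {e : ℕ}
    (hf : f.IsHomogeneous e) : MH (g1 n) f fun _ => e := by
  intro u hu
  funext i
  rw [mdeg_g1]
  have h1 := hf (mem_support_iff.1 hu)
  rw [← h1, Finsupp.weight_apply, Finsupp.sum_fintype _ _ (by simp), Finsupp.degree_eq_sum]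
  simp

/-- The equation `G a + ∑ b, P a b * z a b`. -/
noncomputable def eqR [∀ a, Fintype (B a)] (G : A → MvPolynomial (Fin (n + 1)) k)
    (P : ∀ a, B a → MvPolynomial (Fin (n + 1)) k) (a : A) :
    MvPolynomial (Fin (n + 1) ⊕ (Σ a, B a)) k :=
  rename Sum.inl (G a) + ∑ b, rename Sum.inl (P a b) * X (Sum.inr ⟨a, b⟩)

/-- The equations. -/
def setW [∀ a, Fintype (B a)] (V : Set (MvPolynomial (Fin (n + 1)) k))
    (G : A → MvPolynomial (Fin (n + 1)) k) (P : ∀ a, B a → MvPolynomial (Fin (n + 1)) k) :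
    Set (MvPolynomial (Fin (n + 1) ⊕ (Σ a, B a)) k) :=
  {f | (∃ f' ∈ V, f = rename Sum.inl f') ∨ ∃ a, f = eqR G P a}

/-- The open conditions. -/
def setU (P : ∀ a, B a → MvPolynomial (Fin (n + 1)) k) (c : ∀ a, B a) :
    Set (MvPolynomial (Fin (n + 1) ⊕ (Σ a, B a)) k) :=
  {f | ∃ a, f = rename Sum.inl (P a (c a))}

theorem aeval_eqR [∀ a, Fintype (B a)] {Ω : Type} [Field Ω] [Algebra k Ω]
    (G : A → MvPolynomial (Fin (n + 1)) k)
    (P : ∀ a, B a → MvPolynomial (Fin (n + 1)) k) (a : A) (x : Fin (n + 1) → Ω)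
    (z : (Σ a, B a) → Ω) :
    aeval (Sum.elim x z) (eqR G P a) = aeval x (G a) + ∑ b, aeval x (P a b) * z ⟨a, b⟩ := by
  unfold eqR
  rw [map_add, map_sum, aeval_rename]
  congr 1
  refine Finset.sum_congr rfl fun b _ => ?_
  rw [map_mul, aeval_rename, aeval_X]
  rfl

/-- The condition for the equations. -/
theorem condU_restr [Fintype A] [∀ a, Fintype (B a)] {m N w : ℕ}
    {V : Set (MvPolynomial (Fin (n + 1)) k)} (hV : DimLE k V m)
    {dg : (Σ a, B a) → Unit → ℕ} {δ : A → ℕ} (hδ : ∀ a b, δ a ≤ dg ⟨a, b⟩ ())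
    (G : A → MvPolynomial (Fin (n + 1)) k) (P : ∀ a, B a → MvPolynomial (Fin (n + 1)) k)
    (c : ∀ a, B a) (hd : 2 * m + N ≤ ∑ a, (δ a + 1) + w) :
    CondU (g1 n) dg k (setW V G P) (setU P c) (fun _ => N) w := by
  classical
  intro Ω _ _ x z hx hxW hxU B' hB' i
  choose l0 hg0 hl0 using hx
  have hxV : ∀ f ∈ V, aeval x f = 0 := fun f hf => by
    have h1 := hxW _ (Or.inl ⟨f, hf, rfl⟩)
    rw [aeval_rename] at h1
    exact h1
  have hx0 : x ≠ 0 := fun h => by
    have h1 := hl0 ()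
    rw [h] at h1
    exact zero_ne_one h1
  have h1 := hV Ω x hx0 hxV
  rw [coords_eq hg0 hl0, coordsM_eq hg0 hl0] at h1
  have h2 : x '' {s | g1 n s = i} = Set.range x := by
    rw [← Set.image_univ]
    congr 1
    ext s
    exact ⟨fun _ => trivial, fun _ => rfl⟩
  rw [h2]
  obtain ⟨R, hR⟩ : ∃ R, R = IntermediateField.adjoin k (Set.range x) := ⟨_, rfl⟩
  rw [← hR] at h1 hB' ⊢
  have hmem : ∀ f : MvPolynomial (Fin (n + 1)) k, aeval x f ∈ R := by
    intro f
    rw [hR]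
    exact IntermediateField.algebra_adjoin_le_adjoin _ _ (by
      rw [Algebra.adjoin_range_eq_range_aeval]
      exact ⟨f, rfl⟩)
  have h3 : ∀ a, ∃ b, (⟨a, b⟩ : Σ a, B a) ∈ B' := by
    intro a
    by_contra hcon
    push Not at hcon
    obtain ⟨p, hp⟩ : ∃ p : MvPolynomial {q : (Σ a, B a) // q ∉ B'} R, p =
      MvPolynomial.C (⟨aeval x (G a), hmem _⟩ : R) + ∑ b : B a,
        MvPolynomial.C (⟨aeval x (P a b), hmem _⟩ : R) * X ⟨⟨a, b⟩, hcon b⟩ := ⟨_, rfl⟩
    have h4 : aeval (fun q : {q : (Σ a, B a) // q ∉ B'} => z q) p = 0 := by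
      rw [hp, map_add, map_sum, aeval_C]
      have h5 := hxW _ (Or.inr ⟨a, rfl⟩)
      rw [aeval_eqR] at h5
      rw [← h5]
      congr 1
      refine Finset.sum_congr rfl fun b _ => ?_
      rw [map_mul, aeval_C, aeval_X]
      rfl
    have h5 : p = 0 := (map_eq_zero_iff (aeval fun q : {q : (Σ a, B a) // q ∉ B'} => z q) hB').1 h4
    have h6 := congrArg (pderiv (⟨⟨a, c a⟩, hcon (c a)⟩ : {q : (Σ a, B a) // q ∉ B'})) h5
    rw [hp, map_add, map_sum, pderiv_C, zero_add, map_zero, Finset.sum_eq_single (c a)] at h6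
    · rw [pderiv_C_mul, pderiv_X_self, mul_one] at h6
      have h7 := (map_eq_zero_iff (MvPolynomial.C : R →+* MvPolynomial {q // q ∉ B'} R)
        (MvPolynomial.C_injective _ _)).1 h6
      have h8 := hxU _ ⟨a, rfl⟩
      rw [aeval_rename] at h8
      exact h8 (congrArg Subtype.val h7)
    · intro b _ hb
      rw [pderiv_C_mul, pderiv_X_of_ne, mul_zero]
      intro h
      apply hb
      have h9 := congrArg Subtype.val h
      have h10 := eq_of_heq (Sigma.mk.inj_iff.1 h9).2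
      exact h10
    · intro h; exact absurd (Finset.mem_univ _) h
  choose b hb using h3
  have h4 : ∑ a, (δ a + 1) ≤ ∑ q ∈ B', (dg q i + 1) := by
    have h5 : Function.Injective fun a => (⟨a, b a⟩ : Σ a, B a) := fun a a' h =>
      (Sigma.mk.inj_iff.1 h).1
    have h6 : ∑ q ∈ Finset.univ.image (fun a => (⟨a, b a⟩ : Σ a, B a)), (dg q i + 1) =
        ∑ a, (dg ⟨a, b a⟩ i + 1) := Finset.sum_image fun a _ a' _ h => h5 h
    calc ∑ a, (δ a + 1) ≤ ∑ a, (dg ⟨a, b a⟩ i + 1) :=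
          Finset.sum_le_sum fun a _ => Nat.add_le_add_right (hδ a (b a)) 1
      _ ≤ ∑ q ∈ B', (dg q i + 1) := by
          rw [← h6]
          refine Finset.sum_le_sum_of_subset ?_
          intro q hq
          obtain ⟨a, -, rfl⟩ := Finset.mem_image.1 hq
          exact hb a
  have h5 : ((2 * m + N : ℕ) : Cardinal) ≤ ((∑ q ∈ B', (dg q i + 1) + w : ℕ) : Cardinal) :=
    Nat.cast_le.2 (by omega)
  refine le_trans ?_ h5
  rw [Nat.cast_add, two_mul, Nat.cast_add]
  exact add_le_add_left (add_le_add h1 h1) _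

end defs

end Pool.Agent.V7H76.MU
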