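import Pool.Agent.V7H76.MU.Restr

/-!
Points and subvarieties of complete intersections given by generic forms with given restrictions to
closed subschemes of projective space.
-/

set_option autoImplicit false

open MvPolynomial FF Pool.Agent.W603.LV Pool.Agent.W603.PV Pool.Agent.TH145.GH
open Pool.Agent.W602.GT Pool.Agent.TH145.MG Pool.Agent.V7H76.MP Pool.Agent.V7H76.MW
open LinearAlgebra.Projectivization

namespace Pool.Agent.V7H76.MU

section hom

variable {k : Type} [Field k] {n : ℕ} {A : Type} {B : A → Type}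

theorem WH_of_weighted {A' : Type} [Fintype A'] {dg : A' → Unit → ℕ}
    {f : MvPolynomial (Fin (n + 1) ⊕ A') k} {e : ℕ}
    (hf : IsWeightedHomogeneous (Sum.elim (fun _ => 1) fun q => dg q ()) f e) :
    WH (g1 n) dg f fun _ => e := by
  intro u hu i
  have h1 := hf (mem_support_iff.1 hu)
  rw [← h1, Finsupp.weight_apply, Finsupp.sum_fintype _ _ (by simp), Fintype.sum_sum_type]
  congr 1
  refine Finset.sum_congr rfl fun s _ => ?_
  rw [if_pos rfl]
  simp

theorem weighted_rename {A' : Type} {wt : Fin (n + 1) ⊕ A' → ℕ} (hwt : ∀ s, wt (Sum.inl s) = 1)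
    {f : MvPolynomial (Fin (n + 1)) k} {e : ℕ} (hf : f.IsHomogeneous e) :
    IsWeightedHomogeneous wt (rename Sum.inl f) e := by
  rw [← f.support_sum_monomial_coeff, map_sum]
  simp_rw [rename_monomial]
  refine IsWeightedHomogeneous.sum _ _ _ fun d hd => isWeightedHomogeneous_monomial _ _ _ ?_
  have h1 := hf (mem_support_iff.1 hd)
  rw [← h1, Finsupp.weight_apply, Finsupp.weight_apply]
  rw [Finsupp.sum_mapDomain_index (by simp) (by simp [add_mul])]
  refine Finsupp.sum_congr fun s _ => ?_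
  rw [hwt]
  rfl

theorem WH_setW [Fintype A] [∀ a, Fintype (B a)] {d : A → ℕ} {e : ∀ a, B a → ℕ}
    (he : ∀ a b, e a b ≤ d a) {V : Set (MvPolynomial (Fin (n + 1)) k)}
    (hVh : ∀ f ∈ V, ∃ e, f.IsHomogeneous e)
    {G : A → MvPolynomial (Fin (n + 1)) k} (hG : ∀ a, (G a).IsHomogeneous (d a))
    {P : ∀ a, B a → MvPolynomial (Fin (n + 1)) k} (hP : ∀ a b, (P a b).IsHomogeneous (e a b)) :
    ∀ f ∈ setW V G P, ∃ e', WH (g1 n) (fun (q : Σ a, B a) _ => d q.1 - e q.1 q.2) f e' := by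
  rintro f (⟨f', hf', rfl⟩ | ⟨a, rfl⟩)
  · obtain ⟨e', he'⟩ := hVh f' hf'
    exact ⟨_, WH_of_weighted (weighted_rename (fun _ => rfl) he')⟩
  · refine ⟨fun _ => d a, WH_of_weighted ((weighted_rename (fun _ => rfl) (hG a)).add ?_)⟩
    refine IsWeightedHomogeneous.sum _ _ _ fun b _ => ?_
    have h1 := (weighted_rename (wt := Sum.elim (fun _ => 1)
      fun (q : Σ a, B a) => d q.1 - e q.1 q.2) (fun _ => rfl) (hP a b)).mul
      (isWeightedHomogeneous_X k _ (Sum.inr (⟨a, b⟩ : Σ a, B a)))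
    rw [Sum.elim_inr] at h1
    have h2 : e a b + (d a - e a b) = d a := Nat.add_sub_cancel' (he a b)
    dsimp only at h1
    rwa [h2] at h1

theorem WH_setU [Fintype A] [∀ a, Fintype (B a)] {dg : (Σ a, B a) → Unit → ℕ}
    {e : ∀ a, B a → ℕ}
    {P : ∀ a, B a → MvPolynomial (Fin (n + 1)) k} (hP : ∀ a b, (P a b).IsHomogeneous (e a b))
    (c : ∀ a, B a) : ∀ f ∈ setU P c, ∃ e', WH (g1 n) dg f e' := by
  rintro f ⟨a, rfl⟩
  exact ⟨_, WH_of_weighted (weighted_rename (fun _ => rfl) (hP a (c a)))⟩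

end hom

section main

variable {k K : Type} [Field k] [Field K] [IsAlgClosed K] [CharZero K] [Algebra k K] {n m : ℕ}
  {A : Type} [Fintype A] {B : A → Type} [∀ a, Fintype (B a)]
  {V : Set (MvPolynomial (Fin (n + 1)) (algebraicClosure k K))}
  {d δ : A → ℕ} {e : ∀ a, B a → ℕ}
  {G : A → MvPolynomial (Fin (n + 1)) (algebraicClosure k K)}
  {P : ∀ a, B a → MvPolynomial (Fin (n + 1)) (algebraicClosure k K)}
  {Φ : ∀ a, B a → MvPolynomial (Fin (n + 1)) K} {F : A → MvPolynomial (Fin (n + 1)) K}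

omit [IsAlgClosed K] [CharZero K] [Fintype A] [∀ a, Fintype (B a)] in
theorem indep_restr
    (hgen : AlgebraicIndependent k fun p : (a : A) × (b : B a) ×
      {I : Fin (n + 1) →₀ ℕ // I.degree = d a - e a b} => (Φ p.1 p.2.1).coeff p.2.2.1) :
    AlgebraicIndependent k fun p : Cf (g1 n) (fun (q : Σ a, B a) _ => d q.1 - e q.1 q.2) =>
      (Φ p.1.1 p.1.2).coeff p.2.1 := by
  have h1 : ∀ p : Cf (g1 n) (fun (q : Σ a, B a) _ => d q.1 - e q.1 q.2),
      p.2.1.degree = d p.1.1 - e p.1.1 p.1.2 := by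
    intro p
    rw [← mdeg_g1 p.2.1 (), p.2.2]
  obtain ⟨ψ, hψ⟩ : ∃ ψ : Cf (g1 n) (fun (q : Σ a, B a) _ => d q.1 - e q.1 q.2) →
      (a : A) × (b : B a) × {I : Fin (n + 1) →₀ ℕ // I.degree = d a - e a b},
      ∀ p, ψ p = ⟨p.1.1, p.1.2, ⟨p.2.1, h1 p⟩⟩ := ⟨_, fun _ => rfl⟩
  have hinj : Function.Injective ψ := by
    rintro ⟨⟨a, b⟩, I, hI⟩ ⟨⟨a', b'⟩, I', hI'⟩ h
    rw [hψ, hψ] at h
    obtain ⟨h1, h2⟩ := Sigma.mk.inj_iff.1 h
    dsimp only at h1
    subst h1
    obtain ⟨h3, h4⟩ := Sigma.mk.inj_iff.1 (eq_of_heq h2)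
    dsimp only at h3
    subst h3
    have h5 := congrArg Subtype.val (eq_of_heq h4)
    dsimp only at h5
    subst h5
    rfl
  have h2 := hgen.comp ψ hinj
  have h3 : (fun p : (a : A) × (b : B a) ×
      {I : Fin (n + 1) →₀ ℕ // I.degree = d a - e a b} => (Φ p.1 p.2.1).coeff p.2.2.1) ∘ ψ =
      fun p => (Φ p.1.1 p.1.2).coeff p.2.1 := by
    funext p
    rw [Function.comp_apply, hψ]
  rwa [h3] at h2

omit [IsAlgClosed K] [CharZero K] [Fintype A] in
theorem eval_F {L : Type} [Field L] [Algebra K L] {a : A}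
    (hF : F a = map (algebraMap (algebraicClosure k K) K) (G a) +
      ∑ b, map (algebraMap (algebraicClosure k K) K) (P a b) * Φ a b) (x : Fin (n + 1) → L) :
    aeval (Sum.elim x fun q : Σ a, B a => aeval x (Φ q.1 q.2))
      (map (algebraMap (algebraicClosure k K) K) (eqR G P a)) = aeval x (F a) := by
  unfold eqR
  rw [hF, map_add, map_add, map_rename, aeval_rename, map_add, map_sum, map_sum, map_sum]
  congr 1
  refine Finset.sum_congr rfl fun b _ => ?_
  rw [map_mul, map_mul, map_mul, map_rename, aeval_rename, map_X, aeval_X]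
  rfl

/-- The points. -/
theorem fin_restr (hVh : ∀ f ∈ V, ∃ e, f.IsHomogeneous e)
    (hV : DimLE (algebraicClosure k K) V m) (he : ∀ a b, e a b + δ a ≤ d a)
    (hG : ∀ a, (G a).IsHomogeneous (d a)) (hP : ∀ a b, (P a b).IsHomogeneous (e a b))
    (hΦ : ∀ a b, (Φ a b).IsHomogeneous (d a - e a b))
    (hgen : AlgebraicIndependent k fun p : (a : A) × (b : B a) ×
      {I : Fin (n + 1) →₀ ℕ // I.degree = d a - e a b} => (Φ p.1 p.2.1).coeff p.2.2.1)
    (hF : ∀ a, F a = map (algebraMap (algebraicClosure k K) K) (G a) +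
      ∑ b, map (algebraMap (algebraicClosure k K) K) (P a b) * Φ a b)
    (hd : 2 * m + 2 ≤ ∑ a, (δ a + 1)) (T : Finset K) :
    {p : ℙ K (Fin (n + 1) → K) | ∃ (x : Fin (n + 1) → K) (hx : x ≠ 0),
      p = Projectivization.mk K x hx ∧
      (∀ i, x i ∈ IntermediateField.adjoin (algebraicClosure k K) (T : Set K)) ∧
      (∀ f ∈ V, aeval x f = 0) ∧ (∀ a, eval x (F a) = 0) ∧
      ∀ a, ∃ b, aeval x (P a b) ≠ 0}.Finite := by
  classical
  have hac : IsAlgClosed (algebraicClosure k K) := (algebraicClosure.isAlgClosure k K).isAlgClosed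
  obtain ⟨R, hR⟩ : ∃ R, R = IntermediateField.adjoin (algebraicClosure k K) (T : Set K) :=
    ⟨_, rfl⟩
  rw [← hR]
  have hscale : ∀ {f : MvPolynomial (Fin (n + 1)) (algebraicClosure k K)} {e' : ℕ},
      f.IsHomogeneous e' → ∀ (c : K) (x : Fin (n + 1) → K),
        aeval (fun s => c * x s) f = c ^ e' * aeval x f := by
    intro f e' hf c x
    have h1 := aeval_scaleM (MH_of_hom hf) (fun _ => c) x
    rw [Finset.univ_unique, Finset.prod_singleton] at h1
    exact h1
  have hscaleK : ∀ {f : MvPolynomial (Fin (n + 1)) K} {e' : ℕ},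
      f.IsHomogeneous e' → ∀ (c : K) (x : Fin (n + 1) → K),
        eval (fun s => c * x s) f = c ^ e' * eval x f := by
    intro f e' hf c x
    have h1 := aeval_scaleM (K := K) (MH_of_hom hf) (fun _ => c) x
    rw [Finset.univ_unique, Finset.prod_singleton, aeval_eq_eval, aeval_eq_eval] at h1
    exact h1
  have hFh : ∀ a, (F a).IsHomogeneous (d a) := by
    intro a
    rw [hF]
    refine ((hG a).map _).add (IsHomogeneous.sum _ _ _ fun b _ => ?_)
    have h1 := ((hP a b).map (algebraMap (algebraicClosure k K) K)).mul (hΦ a b)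
    rwa [Nat.add_sub_cancel' ((Nat.le_add_right _ _).trans (he a b))] at h1
  have key : ∀ (l : Fin (n + 1)) (c : ∀ a, B a),
      {x : Fin (n + 1) → K | (∀ j, x j ∈ R) ∧ x l = 1 ∧ (∀ f ∈ V, aeval x f = 0) ∧
        (∀ a, eval x (F a) = 0) ∧ ∀ a, aeval x (P a (c a)) ≠ 0}.Finite := by
    intro l c
    have h1 := fin_pointsU (g := g1 n) (dg := fun (q : Σ a, B a) _ => d q.1 - e q.1 q.2)
      (setW V G P) (setU P c)
      (condU_restr hV (δ := δ) (fun a b => by have := he a b; dsimp only; omega) G P c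
        (N := 2) (w := 0) (by omega))
      (F := fun q => Φ q.1 q.2) (fun q => MH_of_hom (hΦ q.1 q.2))
      (indep_restr hgen).algebraicClosure T (l0 := fun _ => l) (fun _ => rfl)
    rw [← hR] at h1
    refine h1.subset ?_
    rintro x ⟨hx1, hx2, hx3, hx4, hx5⟩
    refine ⟨hx1, fun _ => hx2, ?_, ?_⟩
    · rintro f (⟨f', hf', rfl⟩ | ⟨a, rfl⟩)
      · rw [aeval_rename]
        exact hx3 f' hf'
      · have h2 := eval_F (L := K) (hF a) x
        rw [aeval_map_algebraMap] at h2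
        have h3 : aeval x (F a) = 0 := hx4 a
        rw [h3] at h2
        exact h2
    · rintro f ⟨a, rfl⟩
      rw [aeval_rename]
      exact hx5 a
  obtain ⟨v0, hv0⟩ : ∃ v0 : Fin (n + 1) → K, v0 ≠ 0 := ⟨fun _ => 1, fun h =>
    one_ne_zero (congrFun h 0)⟩
  obtain ⟨f, hf⟩ : ∃ f : (Fin (n + 1) → K) → ℙ K (Fin (n + 1) → K), ∀ x (hx : x ≠ 0),
    f x = Projectivization.mk K x hx := ⟨fun x => if h : x ≠ 0 then Projectivization.mk K x h else
      Projectivization.mk K v0 hv0, fun x hx => dif_pos hx⟩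
  have : Finite (∀ a, B a) := inferInstance
  refine (Set.finite_iUnion fun l => Set.finite_iUnion fun c => (key l c).image f).subset ?_
  rintro p ⟨x, hx, rfl, hxR, hxV, hxF, hxP⟩
  obtain ⟨l, hl⟩ := Function.ne_iff.1 hx
  rw [Pi.zero_apply] at hl
  choose c hc using hxP
  refine Set.mem_iUnion.2 ⟨l, Set.mem_iUnion.2 ⟨c, fun s => (x l)⁻¹ * x s, ⟨fun j => ?_, ?_,
    fun f' hf' => ?_, fun a => ?_, fun a => ?_⟩, ?_⟩⟩
  · exact mul_mem (inv_mem (hxR l)) (hxR j)
  · exact inv_mul_cancel₀ hl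
  · obtain ⟨e', he'⟩ := hVh f' hf'
    rw [hscale he', hxV f' hf', mul_zero]
  · rw [hscaleK (hFh a), hxF a, mul_zero]
  · rw [hscale (hP a (c a))]
    exact mul_ne_zero (pow_ne_zero _ (inv_ne_zero hl)) (hc a)
  · have h1 : (fun s => (x l)⁻¹ * x s) = (x l)⁻¹ • x := rfl
    have h2 : (fun s => (x l)⁻¹ * x s) ≠ 0 := by
      rw [h1]
      exact smul_ne_zero (inv_ne_zero hl) hx
    rw [hf _ h2, Projectivization.mk_eq_mk_iff']
    exact ⟨(x l)⁻¹, rfl⟩

/-- The subvarieties. -/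
theorem general_restr (hVh : ∀ f ∈ V, ∃ e, f.IsHomogeneous e)
    (hV : DimLE (algebraicClosure k K) V m) (he : ∀ a b, e a b + δ a ≤ d a)
    (hG : ∀ a, (G a).IsHomogeneous (d a)) (hP : ∀ a b, (P a b).IsHomogeneous (e a b))
    (hΦ : ∀ a b, (Φ a b).IsHomogeneous (d a - e a b))
    (hgen : AlgebraicIndependent k fun p : (a : A) × (b : B a) ×
      {I : Fin (n + 1) →₀ ℕ // I.degree = d a - e a b} => (Φ p.1 p.2.1).coeff p.2.2.1)
    (hF : ∀ a, F a = map (algebraMap (algebraicClosure k K) K) (G a) +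
      ∑ b, map (algebraMap (algebraicClosure k K) K) (P a b) * Φ a b)
    {L : Type} [Field L] [Algebra K L] {w : ℕ} (hw : 0 < w)
    (hd : 2 * m + 2 ≤ ∑ a, (δ a + 1) + w) (htr : Algebra.trdeg K L = w)
    {x : Fin (n + 1) → L} (hx0 : x ≠ 0) (hgenx : Algebra.IsAlgebraic (coords K x) L)
    (hxV : ∀ f ∈ V, aeval x (map (algebraMap (algebraicClosure k K) K) f) = 0)
    (hxF : ∀ a, aeval x (F a) = 0)
    (hxP : ∀ a, ∃ b, aeval x (map (algebraMap (algebraicClosure k K) K) (P a b)) ≠ 0) :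
    GeneralType K L w := by
  classical
  choose c hc using hxP
  obtain ⟨l, hl⟩ := Function.ne_iff.1 hx0
  rw [Pi.zero_apply] at hl
  have hco : coordsS (g1 n) Set.univ K x = coords K x := by
    unfold coordsS coords
    congr 1
    ext z
    constructor
    · rintro ⟨i, j, -, -, hj, hz⟩
      exact ⟨i, j, hj, hz⟩
    · rintro ⟨i, j, hj, hz⟩
      exact ⟨i, j, rfl, trivial, hj, hz⟩
  refine general_pullU (g := g1 n) (dg := fun (q : Σ a, B a) _ => d q.1 - e q.1 q.2)
    (setW V G P) (setU P c)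
    (WH_setW (fun a b => (Nat.le_add_right _ _).trans (he a b)) hVh hG hP) (WH_setU hP c)
    Set.univ ?_ (fun q => Φ q.1 q.2) (fun q => MH_of_hom (hΦ q.1 q.2))
    (indep_restr hgen).algebraicClosure hw htr x (fun i => ⟨l, rfl, hl⟩) (by rwa [hco]) ?_ ?_
  · simp only [Set.mem_univ, if_true]
    exact condU_restr hV (δ := δ) (fun a b => by have := he a b; dsimp only; omega) G P c
        (N := 2) hd
  · rintro f (⟨f', hf', rfl⟩ | ⟨a, rfl⟩)
    · rw [map_rename, aeval_rename]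
      exact hxV f' hf'
    · rw [eval_F (hF a) x]
      exact hxF a
  · rintro f ⟨a, rfl⟩
    rw [map_rename, aeval_rename]
    exact hc a

end main

end Pool.Agent.V7H76.MU
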